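import Pool.Agent.ATW.Stmts
import Pool.Agent.Helper81_AT2.STG

/-!
# Squad ATW, row ST3: no pair `(y, b)`, `y ^ 2 ≠ 1`, is conjugate to `(y ^ 3, b)`
(adapted from row STG of squad AT2, `Helper81_AT2/STG.lean`)
-/

open scoped BigOperators

set_option autoImplicit false

noncomputable section

namespace Pool.Agent.PP.TW.H86

open Pool.Agent.Helper51_AWC Pool.Agent.Helper79_WRA Pool.Agent.PP Pool.Agent.PP.KF
open Pool.Agent.PP.K9 Pool.Agent.PP.K9.H97 Pool.Agent.PP.H75 Pool.Agent.PP.T3 Pool.Agent.PP.T2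
open Pool.Agent.PP.T5 Pool.Agent.PP.TB Pool.Agent.PP.TW

attribute [local instance] Ideal.Quotient.field

/-- ST3 -/
theorem st3 (dug : DugStmt) (lpw : LpwStmt) (fus : FusStmt) (lcj : LcjStmt) : St3Stmt := by
  intro M _ hM G _ _ N hN e V γ hL y hyl hy1 b hb heb g hg hgb
  have hF : GoodF 2 (FF M) := H50.fld 2 Nat.prime_two M hM
  have hpr : Nat.Prime 2 := Nat.prime_two
  have hC : Subgroup.centralizer ((Subgroup.zpowers y : Subgroup G) : Set G) = Cu y := by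
    ext x
    rw [Subgroup.mem_centralizer_iff, Subgroup.mem_centralizer_singleton_iff]
    constructor
    · intro h
      exact (h y (Subgroup.mem_zpowers y)).symm
    · intro h z hz
      obtain ⟨k, rfl⟩ := Subgroup.mem_zpowers_iff.1 hz
      exact ((show Commute x y from h).zpow_right k).eq.symm
  have hQ : IsPGroup 2 (Subgroup.zpowers y) := by
    obtain ⟨n, hn⟩ := hyl
    rintro ⟨z, hz⟩
    obtain ⟨k, rfl⟩ := Subgroup.mem_zpowers_iff.1 hz
    refine ⟨n, Subtype.ext ?_⟩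
    show (y ^ k) ^ 2 ^ n = 1
    rw [← zpow_natCast, ← zpow_mul, mul_comm, zpow_mul, zpow_natCast, hn, one_zpow]
  obtain ⟨P, hQP, hPC, hP, hPV, hgP⟩ := dug 2 M hM G e hL.blk V hL.tp hL.ab (Subgroup.zpowers y) hQ
    b (by rw [hC]; exact hb) (by rw [hC]; exact heb)
  have hyP : y ∈ P := hQP (Subgroup.mem_zpowers y)
  rw [hC] at hPC
  have hbQ : Bx (Subgroup.centralizer ((Subgroup.zpowers y : Subgroup G) : Set G)) b := by
    rw [hC]
    exact hb
  have hunQ : mulF (br (Subgroup.zpowers y) e) b = b :=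
    T3.H3.under_iff hbQ (by rw [hC]; exact heb)
  -- `P` is good for `e`
  have hCC : Subgroup.centralizer (P : Set G) ≤ Cu y := by
    rw [← hC]
    exact Subgroup.centralizer_le (show ((Subgroup.zpowers y : Subgroup G) : Set G) ⊆ P from hQP)
  have hinvP : H66.Inv P b := fun p hp t => C2.H3.ix_inv hb.ix (hPC hp) t
  have hIb : Ix (Subgroup.centralizer (P : Set G)) (br P b) :=
    C2.H3.ix_br hF hP (fun z hz x => C2.H3.ix_inv hb.ix (hCC hz) x) hinvP hb.mul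
  have hIQ : Ix (Subgroup.centralizer ((Subgroup.zpowers y : Subgroup G) : Set G))
      (br (Subgroup.zpowers y) e) :=
    C2.H3.ix_br hF hQ (fun z _ x => hL.blk.1.1 x z) (H66.IsCl.inv hL.blk.1.1 _) hL.blk.1.2
  have hinvQ : H66.Inv P (br (Subgroup.zpowers y) e) := fun p hp t =>
    C2.H3.ix_inv hIQ (by rw [hC]; exact hPC hp) t
  have hPe : mulF (br P e) (br P b) = br P b := by
    have h1 := congrArg (br P) hunQ
    rwa [H66.br_mulF hF hP hinvQ hinvP, C2.H3.br_br hQP] at h1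
  have hbrb : br P b ≠ 0 := C2.H3.br_ne_of_gd hgP
  have hGe : Gd e P := by
    apply C2.H3.gd_of_br'
    intro h0
    apply hbrb
    rw [← hPe, h0, H75.mulF_zero_left]
  -- the conjugate
  obtain ⟨k, hk⟩ := (K9.H69.fmg 2 M hM G e hL.blk V hL.tp).1 P hP hGe
  have hPk : P = conjS k V := by
    refine Subgroup.eq_of_le_of_card_ge hk ?_
    rw [card_conjS, hPV]
  obtain ⟨hL1, hix1⟩ := lcj 2 (FF M) hF G e V γ hL k
  rw [← hPk] at hL1 hix1
  -- the block of `C(P)`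
  obtain ⟨γ₀, hγ₀, hgγ, -⟩ := K9.H24.exists_blk
    (L := fun a : Subgroup.centralizer (P : Set G) → FF M => a) rfl
    (fun a b => rfl) hIb.idem (by
      intro h
      apply hbrb
      exact H75.eq_of_res hIb.supp (fun _ _ => rfl) h)
  obtain ⟨γ₁, hγ₁⟩ : ∃ γ₁ : G → FF M,
      γ₁ = H75.ext0 (Subgroup.centralizer (P : Set G)) γ₀ := ⟨_, rfl⟩
  have hγs : ∀ x, x ∉ Subgroup.centralizer (P : Set G) → γ₁ x = 0 := by
    rw [hγ₁]
    exact H75.ext0_supp _ γ₀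
  have hγC : (fun t : Subgroup.centralizer (P : Set G) => γ₁ t) = γ₀ := by
    rw [hγ₁]
    exact funext (H75.ext0_apply _ γ₀)
  have hBγ : Bx (Subgroup.centralizer (P : Set G)) γ₁ := ⟨hγs, by rw [hγC]; exact hγ₀⟩
  have hbγ : mulF (br P b) γ₁ = γ₁ := by
    apply H75.eq_of_res (H75.mulF_supp _ hIb.supp hγs) hγs
    rw [H75.mulF_res _ γ₁ hIb.supp, hγC, hgγ]
  have heγ : mulF (br P e) γ₁ = γ₁ := by
    rw [← hbγ, ← H20.mulF_assoc, hPe]
  have hL2 : Ld 2 e P γ₁ := ⟨hL.blk, hL1.tp, hL1.ab, hBγ, heγ⟩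
  have hLc : Lc e P γ₁ y b := ⟨hb, heb, hbγ⟩
  -- `N` is prime to `2`
  obtain ⟨n, hn⟩ := hyl
  obtain ⟨m, _, hm⟩ := (Nat.dvd_prime_pow hpr).1 (orderOf_dvd_of_pow_eq_one hn)
  have hm2 : 2 ≤ m := by
    by_contra h
    apply hy1
    apply orderOf_dvd_iff_pow_eq_one.1
    rw [hm]
    have h1 : m ≤ 1 := by omega
    calc 2 ^ m ∣ 2 ^ 1 := pow_dvd_pow 2 h1
      _ = 2 := pow_one 2
  have hord : 2 ^ 2 ∣ orderOf y := by
    rw [hm]
    exact pow_dvd_pow 2 hm2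
  have hord1 : 2 ∣ orderOf y := (dvd_pow_self 2 two_ne_zero).trans hord
  have hN2 : ¬ 2 ∣ N := by
    intro h
    have h1 : 2 ∣ Nat.card G := hord1.trans (orderOf_dvd_natCard y)
    have h2 := Nat.dvd_gcd h h1
    rw [hN.cop.gcd_eq_one] at h2
    exact hpr.one_lt.ne' (Nat.dvd_one.1 h2)
  obtain ⟨-, hLcN⟩ := lpw 2 (FF M) hF G e P γ₁ hL2 y hyP b hLc N hN2
  obtain ⟨t, ht, hty⟩ := fus 2 M hM G e P γ₁ hL2 (y ^ N) (P.pow_mem hyP N) y hyP b b hLcN hLc g hg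
    hgb
  rw [hN.pow y ⟨n, hn⟩] at hty
  have hpow : ∀ k : ℕ, t ^ k * y * (t ^ k)⁻¹ = y ^ 3 ^ k := by
    intro k
    induction k with
    | zero => rw [pow_zero, pow_zero, pow_one, one_mul, inv_one, mul_one]
    | succ k ih =>
      calc t ^ (k + 1) * y * (t ^ (k + 1))⁻¹ = t ^ k * (t * y * t⁻¹) * (t ^ k)⁻¹ := by
            rw [pow_succ]
            group
        _ = (t ^ k * y * (t ^ k)⁻¹) ^ 3 := by rw [hty, conj_pow]
        _ = y ^ 3 ^ (k + 1) := by rw [ih, ← pow_mul, pow_succ]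
  have hcen := T2.H81.pow_ix P γ₁ ht
  have h1 : y ^ 3 ^ ix P γ₁ = y ^ 1 := by
    rw [← hpow (ix P γ₁), pow_one]
    have h2 := Subgroup.mem_centralizer_iff.1 hcen y hyP
    rw [← h2, mul_inv_cancel_right]
  have h3 : 3 ^ ix P γ₁ ≡ 1 [MOD 2 ^ 2] := (pow_eq_pow_iff_modEq.1 h1).of_dvd hord
  have h6 : 2 ∣ ix P γ₁ := by
    by_contra hodd
    obtain ⟨k, hk⟩ : ∃ k, ix P γ₁ = 2 * k + 1 := ⟨ix P γ₁ / 2, by omega⟩
    have h9 : 3 ^ ix P γ₁ = (3 ^ 2) ^ k * 3 := by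
      rw [hk, ← pow_mul]
      exact pow_succ 3 (2 * k)
    rw [h9] at h3
    have h7 : (3 ^ 2) ^ k * 3 ≡ 1 ^ k * 3 [MOD 2 ^ 2] :=
      (Nat.ModEq.pow k (show 3 ^ 2 ≡ 1 [MOD 2 ^ 2] by decide)).mul_right 3
    have h8 := h7.symm.trans h3
    rw [one_pow] at h8
    exact absurd h8 (by decide)
  exact K9.H34.inx 2 M hM G e hL2.blk P hL2.tp hL2.ab γ₁ hL2.gam.supp hL2.gam.blk hL2.und h6

end Pool.Agent.PP.TW.H86
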